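import Mathlib
import Pool.Agent.Helper226.VCNot

set_option autoImplicit false

open MvPolynomial

universe u

namespace Pool.Agent.Helper17.VCG

open Pool.Agent.Helper226

variable {n : ℕ}

/-- exponents of degree two -/
noncomputable def S2 (n : ℕ) : Finset (Fin n →₀ ℕ) := Finset.finsuppAntidiag Finset.univ 2

lemma mem_S2 (μ : Fin n →₀ ℕ) : μ ∈ S2 n ↔ μ.degree = 2 := by
  simp [S2, Finsupp.degree_eq_sum]

lemma card_S2 : (S2 n).card = (n + 1).choose 2 := by
  rw [S2, Finset.card_finsuppAntidiag_nat_eq_choose]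
  simp

/-- exponents of degree at most one -/
noncomputable def S1 (n : ℕ) : Finset (Fin n →₀ ℕ) :=
  insert 0 (Finset.univ.image fun i => Finsupp.single i 1)

lemma mem_S1 (μ : Fin n →₀ ℕ) : μ ∈ S1 n ↔ μ.degree ≤ 1 := by
  constructor
  · intro h
    rw [S1, Finset.mem_insert, Finset.mem_image] at h
    rcases h with rfl | ⟨i, -, rfl⟩
    · simp
    · simp
  · intro h
    rw [S1, Finset.mem_insert, Finset.mem_image]
    rcases Nat.lt_or_ge μ.degree 1 with h1 | h1
    · exact Or.inl ((Finsupp.degree_eq_zero_iff _).1 (by omega))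
    · obtain ⟨i, rfl⟩ := exists_single_of_degree_one μ (by omega)
      exact Or.inr ⟨i, Finset.mem_univ _, rfl⟩

lemma card_S1 : (S1 n).card = n + 1 := by
  rw [S1, Finset.card_insert_of_notMem, Finset.card_image_of_injective, Finset.card_univ,
    Fintype.card_fin]
  · exact Finsupp.single_left_injective one_ne_zero
  · intro h
    rw [Finset.mem_image] at h
    obtain ⟨i, -, hi⟩ := h
    have := congrArg Finsupp.degree hi
    simp at this

lemma disj (M : Finset (Fin n →₀ ℕ)) (hM : M ⊆ S2 n) : Disjoint (S1 n) M := by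
  rw [Finset.disjoint_left]
  intro μ h1 h2
  have h3 := (mem_S2 μ).1 (hM h2)
  have h4 := (mem_S1 μ).1 h1
  omega

lemma card_B (M : Finset (Fin n →₀ ℕ)) (hM : M ⊆ S2 n) :
    (S1 n ∪ M).card = n + 1 + M.card := by
  rw [Finset.card_union_of_disjoint (disj M hM), card_S1]

/-- numbering of the basis -/
noncomputable def ee (M : Finset (Fin n →₀ ℕ)) (hM : M ⊆ S2 n) (d : ℕ)
    (hd : n + 1 + M.card = d) : {μ // μ ∈ S1 n ∪ M} ≃ Fin d :=
  (S1 n ∪ M).equivFinOfCardEq ((card_B M hM).trans hd)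

/-- the combinatorial datum -/
noncomputable def DD (M : Finset (Fin n →₀ ℕ)) (hM : M ⊆ S2 n) (d : ℕ)
    (hd : n + 1 + M.card = d) : QData n d where
  e j := ((ee M hM d hd).symm j).1
  e_inj := Subtype.val_injective.comp (ee M hM d hd).symm.injective
  e_deg := by
    intro j
    have h := ((ee M hM d hd).symm j).2
    rw [Finset.mem_union] at h
    rcases h with h | h
    · exact ((mem_S1 _).1 h).trans (by norm_num)
    · exact ((mem_S2 _).1 (hM h)).le
  e_small := by
    intro μ hμ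
    refine ⟨ee M hM d hd ⟨μ, Finset.mem_union_left _ ((mem_S1 μ).2 hμ)⟩, ?_⟩
    rw [Equiv.symm_apply_apply]
  N := {μ : Fin n →₀ ℕ // μ ∈ S2 n \ M}
  nb i := i.1
  nb_inj := Subtype.val_injective
  nb_deg i := (mem_S2 _).1 (Finset.mem_sdiff.1 i.2).1
  nb_disj := by
    intro i j h
    have h1 := ((ee M hM d hd).symm j).2
    rw [← h, Finset.mem_union] at h1
    rcases h1 with h1 | h1
    · have h2 := (mem_S1 _).1 h1
      have h3 := (mem_S2 _).1 (Finset.mem_sdiff.1 i.2).1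
      omega
    · exact (Finset.mem_sdiff.1 i.2).2 h1
  cover := by
    intro μ hμ
    by_cases h : μ ∈ M
    · left
      refine ⟨ee M hM d hd ⟨μ, Finset.mem_union_right _ h⟩, ?_⟩
      rw [Equiv.symm_apply_apply]
    · right
      exact ⟨⟨μ, Finset.mem_sdiff.2 ⟨(mem_S2 μ).2 hμ, h⟩⟩, rfl⟩

lemma DD_e (M : Finset (Fin n →₀ ℕ)) (hM : M ⊆ S2 n) (d : ℕ) (hd : n + 1 + M.card = d)
    (μ : Fin n →₀ ℕ) (h : μ ∈ M) : ∃ j, (DD M hM d hd).e j = μ := by
  refine ⟨ee M hM d hd ⟨μ, Finset.mem_union_right _ h⟩, ?_⟩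
  change ((ee M hM d hd).symm (ee M hM d hd ⟨μ, _⟩)).1 = μ
  rw [Equiv.symm_apply_apply]

lemma card_N (M : Finset (Fin n →₀ ℕ)) (hM : M ⊆ S2 n) (d : ℕ) (hd : n + 1 + M.card = d) :
    Fintype.card (DD M hM d hd).N = (n + 1).choose 2 - M.card := by
  have h1 : Fintype.card (DD M hM d hd).N = Fintype.card {μ : Fin n →₀ ℕ // μ ∈ S2 n \ M} :=
    Fintype.card_congr (Equiv.refl _)
  rw [h1, Fintype.card_coe, Finset.card_sdiff_of_subset hM, card_S2]

lemma card_E (M : Finset (Fin n →₀ ℕ)) (hM : M ⊆ S2 n) (d : ℕ) (hd : n + 1 + M.card = d) :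
    Fintype.card (DD M hM d hd).E = M.card := by
  rw [← Fintype.card_coe M]
  have key : ∀ x : (DD M hM d hd).E, (DD M hM d hd).e x.1 ∈ M := by
    intro x
    have h := ((ee M hM d hd).symm x.1).2
    rw [Finset.mem_union] at h
    rcases h with h | h
    · have h1 := (mem_S1 _).1 h
      have h2 : ((ee M hM d hd).symm x.1).1.degree = 2 := x.2
      omega
    · exact h
  refine Fintype.card_congr (Equiv.ofBijective (fun x => (⟨_, key x⟩ : {μ // μ ∈ M})) ⟨?_, ?_⟩)
  · intro x y h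
    have h' := Subtype.ext_iff.1 h
    exact Subtype.ext ((DD M hM d hd).e_inj h')
  · rintro ⟨μ, hμ⟩
    obtain ⟨j, hj⟩ := DD_e M hM d hd μ hμ
    exact ⟨⟨j, by rw [hj]; exact (mem_S2 μ).1 (hM hμ)⟩, Subtype.ext hj⟩

/-- the other variable -/
def ob (z0 z1 : Fin n) (a : Fin n) : Fin n := if a = z0 then z1 else z0

/-- the monomials which we need -/
noncomputable def M0 (z0 z1 : Fin n) : Finset (Fin n →₀ ℕ) :=
  ((Finset.univ.erase z0).image fun a => Finsupp.single a 1 + Finsupp.single z0 1) ∪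
    {Finsupp.single z0 1 + Finsupp.single z0 1, Finsupp.single z1 1 + Finsupp.single z1 1}

lemma card_M0 (z0 z1 : Fin n) : (M0 z0 z1).card ≤ n + 1 := by
  have hn : 0 < n := z0.pos
  refine (Finset.card_union_le _ _).trans ?_
  have h1 : ((Finset.univ.erase z0).image
      fun a => (Finsupp.single a 1 + Finsupp.single z0 1 : Fin n →₀ ℕ)).card ≤ n - 1 := by
    refine Finset.card_image_le.trans ?_
    rw [Finset.card_erase_of_mem (Finset.mem_univ _), Finset.card_univ, Fintype.card_fin]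
  have h2 := Finset.card_le_two (a := (Finsupp.single z0 1 + Finsupp.single z0 1 : Fin n →₀ ℕ))
    (b := Finsupp.single z1 1 + Finsupp.single z1 1)
  omega

lemma M0_sub (z0 z1 : Fin n) : M0 z0 z1 ⊆ S2 n := by
  intro μ h
  rw [mem_S2]
  simp only [M0, Finset.mem_union, Finset.mem_image, Finset.mem_insert,
    Finset.mem_singleton] at h
  rcases h with ⟨a, -, rfl⟩ | rfl | rfl <;> simp

lemma M0_sq (z0 z1 a : Fin n) :
    Finsupp.single (ob z0 z1 a) 1 + Finsupp.single (ob z0 z1 a) 1 ∈ M0 z0 z1 := by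
  unfold ob M0
  split_ifs <;> simp

lemma M0_mul (z0 z1 : Fin n) (h : z0 ≠ z1) (a : Fin n) :
    Finsupp.single a 1 + Finsupp.single (ob z0 z1 a) 1 ∈ M0 z0 z1 := by
  unfold ob M0
  rw [Finset.mem_union]
  left
  rw [Finset.mem_image]
  split_ifs with h1
  · subst h1
    exact ⟨z1, Finset.mem_erase.2 ⟨h.symm, Finset.mem_univ _⟩, add_comm _ _⟩
  · exact ⟨a, Finset.mem_erase.2 ⟨h1, Finset.mem_univ _⟩, rfl⟩

lemma ob_ne (z0 z1 : Fin n) (h : z0 ≠ z1) (a : Fin n) : ob z0 z1 a ≠ a := by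
  unfold ob
  split_ifs with h1
  · subst h1; exact h.symm
  · exact fun h2 => h1 h2.symm

/-- the triangles -/
noncomputable def TT (M : Finset (Fin n →₀ ℕ)) (hM : M ⊆ S2 n) (d : ℕ) (hd : n + 1 + M.card = d)
    (z0 z1 : Fin n) (hz : z0 ≠ z1) (hM0 : M0 z0 z1 ⊆ M) : Tri (DD M hM d hd) where
  tb := ob z0 z1
  tc := ob z0 z1
  jbc a := (DD_e M hM d hd _ (hM0 (M0_sq z0 z1 a))).choose
  jac a := (DD_e M hM d hd _ (hM0 (M0_mul z0 z1 hz a))).choose
  jab a := (DD_e M hM d hd _ (hM0 (M0_mul z0 z1 hz a))).choose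
  hbc a := (DD_e M hM d hd _ (hM0 (M0_sq z0 z1 a))).choose_spec
  hac a := (DD_e M hM d hd _ (hM0 (M0_mul z0 z1 hz a))).choose_spec
  hab a := (DD_e M hM d hd _ (hM0 (M0_mul z0 z1 hz a))).choose_spec
  ne1 a h := by
    have h1 := congrArg (DD M hM d hd).e h
    rw [(DD_e M hM d hd _ (hM0 (M0_sq z0 z1 a))).choose_spec,
      (DD_e M hM d hd _ (hM0 (M0_mul z0 z1 hz a))).choose_spec] at h1
    exact ob_ne z0 z1 hz a (Finsupp.single_left_injective one_ne_zero (add_right_cancel h1))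
  ne2 a h := by
    have h1 := congrArg (DD M hM d hd).e h
    rw [(DD_e M hM d hd _ (hM0 (M0_sq z0 z1 a))).choose_spec,
      (DD_e M hM d hd _ (hM0 (M0_mul z0 z1 hz a))).choose_spec] at h1
    exact ob_ne z0 z1 hz a (Finsupp.single_left_injective one_ne_zero (add_right_cancel h1))

lemma exists_M (n r : ℕ) (hn : n < r) (hr : r ≤ (n + 1).choose 2) :
    ∃ (z0 z1 : Fin n) (M : Finset (Fin n →₀ ℕ)), z0 ≠ z1 ∧ M0 z0 z1 ⊆ M ∧ M ⊆ S2 n ∧
      M.card = r := by
  have h2 : 2 ≤ n := by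
    by_contra h
    have h3 : n = 0 ∨ n = 1 := by omega
    rcases h3 with rfl | rfl
    · simp at hr; omega
    · simp at hr; omega
  have hz : (⟨0, by omega⟩ : Fin n) ≠ ⟨1, by omega⟩ := by
    intro h
    have := congrArg Fin.val h
    simp at this
  obtain ⟨M, h4, h5, h6⟩ := Finset.exists_subsuperset_card_eq
    (M0_sub (⟨0, by omega⟩ : Fin n) ⟨1, by omega⟩) (n := r)
    ((card_M0 _ _).trans (by omega)) (by rw [card_S2]; exact hr)
  exact ⟨_, _, M, hz, h4, h5, h6⟩

lemma choose_three (n : ℕ) : 6 * (n + 2).choose 3 = (n + 2) * (n + 1) * n := by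
  have h := Nat.descFactorial_eq_factorial_mul_choose (n + 2) 3
  have h1 : (n + 2).descFactorial 3 = (n + 2) * (n + 1) * n := by
    simp [Nat.descFactorial]
    ring
  have h2 : Nat.factorial 3 = 6 := rfl
  rw [h1, h2] at h
  exact h.symm

lemma choose_two (n : ℕ) : 2 * (n + 1).choose 2 = (n + 1) * n := by
  have h := Nat.descFactorial_eq_factorial_mul_choose (n + 1) 2
  have h1 : (n + 1).descFactorial 2 = (n + 1) * n := by
    simp [Nat.descFactorial]
    ring
  have h2 : Nat.factorial 2 = 2 := rfl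
  rw [h1, h2] at h
  exact h.symm

lemma choose_n (n : ℕ) : (n + 2).choose n = n + 1 + (n + 1).choose 2 := by
  rw [Nat.choose_symm_add, Nat.choose_succ_succ, Nat.choose_one_right]

lemma num1 (n r : ℕ) (hn : n < r) (hr : r ≤ (n + 1).choose 2) (h : n ^ 2 < 3 * r + 1) :
    ((n + 1).choose 2 - r) * n < (n + 2).choose 3 := by
  obtain ⟨s, hs⟩ := Nat.exists_eq_add_of_le hr
  have h1 : (n + 1).choose 2 - r = s := by omega
  rw [h1]
  have h2 := choose_two n
  have h3 := choose_three n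
  rw [hs] at h2
  have h0 : 0 < n := by
    rcases Nat.eq_zero_or_pos n with rfl | h0
    · simp at hr; omega
    · exact h0
  have h4 : 6 * (s * n) < 6 * (n + 2).choose 3 := by
    rw [h3]
    have h5 : 6 * s < (n + 2) * (n + 1) := by nlinarith
    calc 6 * (s * n) = 6 * s * n := by ring
      _ < (n + 2) * (n + 1) * n := Nat.mul_lt_mul_of_pos_right h5 h0
  omega

end Pool.Agent.Helper17.VCG
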